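import Mathlib

set_option autoImplicit false

namespace Pool.Agent.Results.MP_ef9ba3_an.NotRegularizer

section
variable {H : Type} [NormedAddCommGroup H] [InnerProductSpace ℝ H] {m : ℕ}

/-- the elements consistent with the data -/
def cons (Λ : H →ₗ[ℝ] EuclideanSpace ℝ (Fin m)) (P : H →ₗ[ℝ] H) (ε η : ℝ)
    (y : EuclideanSpace ℝ (Fin m)) : Set H :=
  {f | ‖P f‖ ≤ ε ∧ ‖y - Λ f‖ ≤ η}

/-- `z` minimises `sup_{f ∈ K} ‖f - z‖` -/
def IsCenter (K : Set H) (z : H) : Prop :=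
  ∀ z' : H, ⨆ f ∈ K, edist f z ≤ ⨆ f ∈ K, edist f z'

/-- the regularization functional `F_τ` -/
noncomputable def F (Λ : H →ₗ[ℝ] EuclideanSpace ℝ (Fin m)) (P : H →ₗ[ℝ] H)
    (y : EuclideanSpace ℝ (Fin m)) (τ : ℝ) (f : H) : ℝ :=
  (1 - τ) * ‖P f‖ ^ 2 + τ * ‖y - Λ f‖ ^ 2

end

abbrev E (n : ℕ) := EuclideanSpace ℝ (Fin n)

noncomputable def Λ : E 2 →ₗ[ℝ] E 1 where
  toFun f := !₂[6 * f 0 + 5 * f 1]
  map_add' f g := by ext i; fin_cases i; simp; ring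
  map_smul' c f := by ext i; fin_cases i; simp; ring

noncomputable def P : E 2 →ₗ[ℝ] E 2 where
  toFun f := !₂[f 0 / 2, f 1]
  map_add' f g := by ext i; fin_cases i <;> simp; ring
  map_smul' c f := by ext i; fin_cases i <;> simp; ring

noncomputable def y : E 1 := !₂[4420]

theorem nP (f : E 2) : ‖P f‖ ^ 2 = (f 0 / 2) ^ 2 + f 1 ^ 2 := by
  rw [EuclideanSpace.real_norm_sq_eq]; simp [P, Fin.sum_univ_two]

theorem nL (f : E 2) : ‖y - Λ f‖ ^ 2 = (4420 - (6 * f 0 + 5 * f 1)) ^ 2 := by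
  rw [EuclideanSpace.real_norm_sq_eq]; simp [Λ, y]

theorem nD (f g : E 2) : dist f g ^ 2 = (f 0 - g 0) ^ 2 + (f 1 - g 1) ^ 2 := by
  rw [dist_eq_norm, EuclideanSpace.real_norm_sq_eq]; simp [Fin.sum_univ_two]

theorem mem (f : E 2) : f ∈ cons Λ P 442 1716 y ↔
    (f 0 / 2) ^ 2 + f 1 ^ 2 ≤ 442 ^ 2 ∧ (4420 - (6 * f 0 + 5 * f 1)) ^ 2 ≤ 1716 ^ 2 := by
  rw [← nP, ← nL, sq_le_sq₀ (norm_nonneg _) (by norm_num), sq_le_sq₀ (norm_nonneg _) (by norm_num)]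
  rfl

noncomputable def A : E 2 := !₂[84, 440]
noncomputable def B : E 2 := !₂[816, -170]
noncomputable def z : E 2 := !₂[450, 135]

theorem mA : A ∈ cons Λ P 442 1716 y := by rw [mem]; simp [A]; norm_num
theorem mB : B ∈ cons Λ P 442 1716 y := by rw [mem]; simp [B]; norm_num

theorem up : ⨆ f ∈ cons Λ P 442 1716 y, edist f z ≤ ENNReal.ofReal (√226981) := by
  refine iSup₂_le fun f hf => ?_
  rw [edist_dist]
  refine ENNReal.ofReal_le_ofReal (Real.le_sqrt_of_sq_le ?_)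
  obtain ⟨h1, h2⟩ := (mem f).mp hf
  rw [nD]
  have e0 : z 0 = 450 := rfl
  have e1 : z 1 = 135 := rfl
  rw [e0, e1]
  have h3 : 0 ≤ 6 * f 0 + 5 * f 1 - 2704 := by nlinarith
  have h4 : 0 ≤ 5746 - 6 * f 0 + 5 * f 1 := by
    nlinarith [sq_nonneg (f 0 / 2 - 408), sq_nonneg (f 1 + 170)]
  nlinarith [mul_nonneg h3 h4]

theorem uniq (w : E 2) (h : ⨆ f ∈ cons Λ P 442 1716 y, edist f w ≤ ENNReal.ofReal (√226981)) :
    w = z := by
  have k : ∀ f ∈ cons Λ P 442 1716 y, dist f w ^ 2 ≤ 226981 := by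
    intro f hf
    have := (le_iSup₂ (f := fun f (_ : f ∈ cons Λ P 442 1716 y) => edist f w) f hf).trans h
    rw [edist_dist, ENNReal.ofReal_le_ofReal_iff (Real.sqrt_nonneg _)] at this
    exact (Real.le_sqrt dist_nonneg (by norm_num)).mp this
  have h1 := k A mA
  have h2 := k B mB
  rw [nD] at h1 h2
  have a0 : A 0 = 84 := rfl
  have a1 : A 1 = 440 := rfl
  have b0 : B 0 = 816 := rfl
  have b1 : B 1 = -170 := rfl
  rw [a0, a1] at h1
  rw [b0, b1] at h2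
  have e0 : w 0 = 450 := by nlinarith [sq_nonneg (w 0 - 450), sq_nonneg (w 1 - 135)]
  have e1 : w 1 = 135 := by nlinarith [sq_nonneg (w 0 - 450), sq_nonneg (w 1 - 135)]
  ext i
  fin_cases i
  · exact e0
  · exact e1

theorem low (w : E 2) : ENNReal.ofReal (√226981) ≤ ⨆ f ∈ cons Λ P 442 1716 y, edist f w := by
  have k : ∀ f ∈ cons Λ P 442 1716 y, 226981 ≤ dist f w ^ 2 →
      ENNReal.ofReal (√226981) ≤ ⨆ f ∈ cons Λ P 442 1716 y, edist f w := by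
    intro f hf h
    refine le_trans ?_ (le_iSup₂ (f := fun f (_ : f ∈ cons Λ P 442 1716 y) => edist f w) f hf)
    rw [edist_dist]
    exact ENNReal.ofReal_le_ofReal (Real.sqrt_le_iff.mpr ⟨dist_nonneg, h⟩)
  by_cases h : 226981 ≤ dist A w ^ 2
  · exact k A mA h
  · refine k B mB ?_
    rw [nD] at h ⊢
    have a0 : A 0 = 84 := rfl
    have a1 : A 1 = 440 := rfl
    have b0 : B 0 = 816 := rfl
    have b1 : B 1 = -170 := rfl
    rw [a0, a1] at h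
    rw [b0, b1]
    nlinarith [sq_nonneg (w 0 - 450), sq_nonneg (w 1 - 135)]

/-- Data whose (unique) Chebyshev center minimises `F_τ` for no `τ ∈ [0, 1]`. -/
theorem result :
    ∃ (H : Type) (_ : NormedAddCommGroup H) (_ : InnerProductSpace ℝ H) (_ : FiniteDimensional ℝ H)
      (m : ℕ) (Λ : H →ₗ[ℝ] EuclideanSpace ℝ (Fin m)) (P : H →ₗ[ℝ] H) (ε η : ℝ)
      (y : EuclideanSpace ℝ (Fin m)) (z : H),
      0 < ε ∧ 0 < η ∧ LinearMap.ker P ⊓ LinearMap.ker Λ = ⊥ ∧ (cons Λ P ε η y).Nonempty ∧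
      IsCenter (cons Λ P ε η y) z ∧ (∀ w, IsCenter (cons Λ P ε η y) w → w = z) ∧
      ∀ τ ∈ Set.Icc (0 : ℝ) 1, ¬ ∀ f, F Λ P y τ z ≤ F Λ P y τ f := by
  refine ⟨E 2, inferInstance, inferInstance, inferInstance, 1, Λ, P, 442, 1716, y, z, by norm_num,
    by norm_num, ?_, ⟨A, mA⟩, fun w => up.trans (low w), fun w hw => uniq w ((hw z).trans up), ?_⟩
  · rw [eq_bot_iff]
    rintro f ⟨h, -⟩
    have h1 := nP f
    rw [LinearMap.mem_ker.mp h, norm_zero] at h1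
    have e0 : f 0 = 0 := by nlinarith [sq_nonneg (f 0), sq_nonneg (f 1)]
    have e1 : f 1 = 0 := by nlinarith [sq_nonneg (f 0), sq_nonneg (f 1)]
    rw [Submodule.mem_bot]
    ext i
    fin_cases i
    · exact e0
    · exact e1
  · rintro τ ⟨h0, h1⟩ h
    have h2 := h !₂[455, 129]
    have h3 := h !₂[451, 135]
    simp only [F, nP, nL] at h2 h3
    simp [z] at h2 h3
    nlinarith

end Pool.Agent.Results.MP_ef9ba3_an.NotRegularizer
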